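import Mathlib
import Pool.Agent.H592W.Sum2

set_option autoImplicit false
open scoped ENNReal BigOperators

namespace Pool.Agent.Y56.WP

open Pool.Agent.H592

noncomputable section

/-- the weight of `n` steps at scale `r` -/
def ph (r n : ℕ) : ℝ := (n : ℝ) / (1 + Real.log ((n : ℝ) / (r : ℝ) ^ 2))

/-- the sum of the criterion at scale `r` -/
def TT (w : ℕ → ℝ) (r : ℕ) : ℝ≥0∞ :=
  ∑' n : ℕ, if r ^ 2 ≤ n then ENNReal.ofReal (w n * ph r n) else 0

theorem log_ratio_nonneg {r n : ℕ} (hr : 1 ≤ r) (hn : r ^ 2 ≤ n) :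
    0 ≤ Real.log ((n : ℝ) / (r : ℝ) ^ 2) := by
  apply Real.log_nonneg
  have hr0 : (0 : ℝ) < (r : ℝ) ^ 2 := by
    have : (0 : ℝ) < r := by exact_mod_cast hr
    positivity
  rw [le_div_iff₀ hr0, one_mul]
  exact_mod_cast hn

theorem ph_nonneg {r n : ℕ} (hr : 1 ≤ r) (hn : r ^ 2 ≤ n) : 0 ≤ ph r n := by
  have := log_ratio_nonneg hr hn
  unfold ph
  positivity

theorem log_le_ten {x : ℝ} (hx : 0 < x) (h : x ≤ 3456) : Real.log x ≤ 9 := by
  rw [Real.log_le_iff_le_exp hx]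
  refine h.trans ?_
  have h1 : (2.7 : ℝ) ≤ Real.exp 1 := by
    have := Real.exp_one_gt_d9
    linarith
  have h2 : Real.exp 9 = Real.exp 1 ^ 9 := by
    rw [← Real.exp_nat_mul]; norm_num
  rw [h2]
  calc (3456 : ℝ) ≤ 2.7 ^ 9 := by norm_num
    _ ≤ Real.exp 1 ^ 9 := by gcongr

/-- large worms -/
theorem aa_big (c : V 2) (r n : ℕ) (hr : 1 ≤ r) (hn : r ^ 2 ≤ n) :
    (aa c r n).toReal ≤ 1440000 * ph r n := by
  have hr0 : (1 : ℝ) ≤ r := by exact_mod_cast hr
  have hr2 : (0 : ℝ) < (r : ℝ) ^ 2 := by positivity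
  have hn1 : (1 : ℝ) ≤ n := by
    have : 1 ≤ r ^ 2 := Nat.one_le_pow _ _ hr
    exact_mod_cast this.trans hn
  have hL := log_ratio_nonneg hr hn
  have hA0 : 0 ≤ (aa c r n).toReal := ENNReal.toReal_nonneg
  unfold ph
  rw [mul_div_assoc', le_div_iff₀ (by linarith)]
  by_cases h : n ≤ 3456 * r ^ 2
  · have h1 := aa_large2 c r n hr (by omega)
    have h2 : Real.log ((n : ℝ) / (r : ℝ) ^ 2) ≤ 9 := by
      apply log_le_ten (by positivity)
      rw [div_le_iff₀ hr2]
      exact_mod_cast h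
    calc (aa c r n).toReal * (1 + Real.log ((n : ℝ) / (r : ℝ) ^ 2))
        ≤ (72000 * ((n : ℝ) + 1)) * (1 + 9) := by gcongr
      _ ≤ 1440000 * n := by linarith
  · have h1 := aa_log c r n hr (by omega) (aa_fin c r n hr)
    have hlt : 3456 * (r : ℝ) ^ 2 < n := by exact_mod_cast (by omega : 3456 * r ^ 2 < n)
    have h3 : 1 ≤ Real.log ((n : ℝ) / (1152 * (r : ℝ) ^ 2)) := by
      refine log_three.trans (Real.log_le_log (by norm_num) ?_)
      rw [le_div_iff₀ (by positivity)]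
      linarith
    have h4 : Real.log ((n : ℝ) / (r : ℝ) ^ 2) =
        Real.log 1152 + Real.log ((n : ℝ) / (1152 * (r : ℝ) ^ 2)) := by
      rw [← Real.log_mul (by norm_num) (by positivity)]
      congr 1
      field_simp
    have h5 : Real.log 1152 ≤ 9 := log_le_ten (by norm_num) (by norm_num)
    rw [h4]
    calc (aa c r n).toReal * (1 + (Real.log 1152 + Real.log ((n : ℝ) / (1152 * (r : ℝ) ^ 2))))
        ≤ (aa c r n).toReal * (11 * Real.log ((n : ℝ) / (1152 * (r : ℝ) ^ 2))) := by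
          apply mul_le_mul_of_nonneg_left _ hA0
          linarith
      _ = 11 * (Real.log ((n : ℝ) / (1152 * (r : ℝ) ^ 2)) * (aa c r n).toReal) := by ring
      _ ≤ 11 * (30000 * n) := by gcongr
      _ ≤ 1440000 * n := by linarith

/-- small worms -/
theorem aa_sml (c : V 2) (r n : ℕ) (hr : 1 ≤ r) (hn0 : 1 ≤ n) (hn : n < r ^ 2) :
    (aa c r n).toReal ≤ (99 ^ 6 * 120 * 48) * (16 ^ (Nat.log 4 n) / (r : ℝ) ^ 4) *
      ph (2 ^ (Nat.log 4 n)) n := by
  have hr0 : (1 : ℝ) ≤ r := by exact_mod_cast hr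
  have hr4 : (0 : ℝ) < (r : ℝ) ^ 4 := by positivity
  set i := Nat.log 4 n with hi
  have h1 : 4 ^ i ≤ n := Nat.pow_log_le_self 4 (by omega)
  have h2 : n < 4 ^ (i + 1) := Nat.lt_pow_succ_log_self (by norm_num) n
  have h1r : (4 : ℝ) ^ i ≤ n := by exact_mod_cast h1
  have h2r : (n : ℝ) ≤ 4 ^ (i + 1) := by exact_mod_cast h2.le
  have hn1 : (1 : ℝ) ≤ n := by exact_mod_cast hn0
  have e4 : (((2 ^ i : ℕ) : ℝ)) ^ 2 = 4 ^ i := by
    push_cast
    rw [← pow_mul, mul_comm, pow_mul]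
    norm_num
  have hpos4 : (0 : ℝ) < (4 : ℝ) ^ i := by positivity
  have hlog0 : 0 ≤ Real.log ((n : ℝ) / 4 ^ i) := by
    apply Real.log_nonneg
    rw [le_div_iff₀ hpos4, one_mul]
    exact h1r
  have hlog : Real.log ((n : ℝ) / 4 ^ i) ≤ 2 := by
    have h3 : (n : ℝ) / 4 ^ i ≤ 4 := by
      rw [div_le_iff₀ hpos4]
      calc (n : ℝ) ≤ 4 ^ (i + 1) := h2r
        _ = 4 * 4 ^ i := by ring
    rw [Real.log_le_iff_le_exp (by positivity)]
    refine h3.trans ?_
    have h4 : (2 : ℝ) ≤ Real.exp 1 := by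
      have := Real.exp_one_gt_d9
      linarith
    have h5 : Real.exp 2 = Real.exp 1 ^ 2 := by
      rw [← Real.exp_nat_mul]; norm_num
    rw [h5]
    nlinarith
  have hs := aa_small2 c r n hr
  have hph : (n : ℝ) / 3 ≤ ph (2 ^ i) n := by
    unfold ph
    rw [e4]
    apply div_le_div_of_nonneg_left (by positivity) (by linarith) (by linarith)
  have h16 : (n : ℝ) ^ 2 ≤ 16 * 16 ^ i := by
    calc (n : ℝ) ^ 2 ≤ (4 ^ (i + 1)) ^ 2 := by gcongr
      _ = 16 * 16 ^ i := by
        rw [← pow_mul, mul_comm (i + 1) 2, pow_mul]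
        norm_num
        ring
  have hA : (aa c r n).toReal ≤ (99 ^ 6 * 120) * (n : ℝ) ^ 3 / (r : ℝ) ^ 4 := by
    rw [le_div_iff₀ hr4]
    linarith
  refine hA.trans ?_
  calc (99 ^ 6 * 120) * (n : ℝ) ^ 3 / (r : ℝ) ^ 4
      = (99 ^ 6 * 120) / (r : ℝ) ^ 4 * (n : ℝ) ^ 2 * n := by ring
    _ ≤ (99 ^ 6 * 120) / (r : ℝ) ^ 4 * (16 * 16 ^ i) * n := by gcongr
    _ = (99 ^ 6 * 120 * 48) * (16 ^ i / (r : ℝ) ^ 4) * ((n : ℝ) / 3) := by ring
    _ ≤ _ := by gcongr

theorem geo16 (m : ℕ) : ∑ i ∈ Finset.range (m + 1), (16 : ℝ) ^ i ≤ 2 * 16 ^ m := by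
  induction m with
  | zero => norm_num
  | succ m ih =>
    rw [Finset.sum_range_succ]
    have h0 : (0 : ℝ) ≤ 16 ^ m := by positivity
    have h1 : (16 : ℝ) ^ (m + 1) = 16 * 16 ^ m := by ring
    rw [h1]
    linarith

/-- **criterion**: if the sums `TT w r` are bounded, then the mean numbers of bad worms are
bounded -/
theorem BS2_crit (w : ℕ → ℝ) (hw : ∀ n, 0 ≤ w n) (H0 : ℝ) (hH0 : 0 ≤ H0)
    (hT : ∀ r : ℕ, 1 ≤ r → TT w r ≤ ENNReal.ofReal H0) :
    ∃ H : ℝ, ∀ (c : V 2) (r : ℕ), 1 ≤ r → BS (sh w) c r ≤ ENNReal.ofReal H := by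
  refine ⟨1440000 * H0 + (99 ^ 6 * 120 * 48) * 2 * H0, fun c r hr => ?_⟩
  have hr0 : (1 : ℝ) ≤ r := by exact_mod_cast hr
  have hr4 : (0 : ℝ) < (r : ℝ) ^ 4 := by positivity
  set m := Nat.log 4 (r ^ 2) with hm
  have hrr : r ^ 2 ≠ 0 := by positivity
  have hterm : ∀ n : ℕ, ENNReal.ofReal (sh w (n + 1)) * aa c r n
      ≤ ENNReal.ofReal 1440000 * (if r ^ 2 ≤ n then ENNReal.ofReal (w n * ph r n) else 0)
        + ∑ i ∈ Finset.range (m + 1),
          ENNReal.ofReal ((99 ^ 6 * 120 * 48) * (16 ^ i / (r : ℝ) ^ 4)) *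
            (if (2 ^ i) ^ 2 ≤ n then ENNReal.ofReal (w n * ph (2 ^ i) n) else 0) := by
    intro n
    rw [sh_succ, ← ENNReal.ofReal_toReal (aa_fin c r n hr), ← ENNReal.ofReal_mul (hw n)]
    by_cases hn : r ^ 2 ≤ n
    · refine le_trans ?_ le_self_add
      rw [if_pos hn, ← ENNReal.ofReal_mul (by norm_num)]
      refine ENNReal.ofReal_le_ofReal ?_
      have := mul_le_mul_of_nonneg_left (aa_big c r n hr hn) (hw n)
      linarith
    · rcases Nat.eq_zero_or_pos n with h0 | h0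
      · subst h0
        have h1 := aa_small2 c r 0 hr
        have h2 : (aa c r 0).toReal = 0 := by
          refine le_antisymm ?_ ENNReal.toReal_nonneg
          refine le_of_mul_le_mul_left (h1.trans (le_of_eq ?_)) hr4
          simp
        rw [h2]
        simp
      · refine le_trans ?_ le_add_self
        have hi : Nat.log 4 n ∈ Finset.range (m + 1) := by
          rw [Finset.mem_range, hm]
          exact Nat.lt_succ_of_le (Nat.log_mono_right (by omega))
        refine le_trans ?_ (Finset.single_le_sum (f := fun i =>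
          ENNReal.ofReal ((99 ^ 6 * 120 * 48) * (16 ^ i / (r : ℝ) ^ 4)) *
            (if (2 ^ i) ^ 2 ≤ n then ENNReal.ofReal (w n * ph (2 ^ i) n) else 0))
          (fun _ _ => zero_le) hi)
        have hle : (2 ^ (Nat.log 4 n)) ^ 2 ≤ n := by
          rw [← pow_mul, mul_comm, pow_mul]
          exact Nat.pow_log_le_self 4 (by omega)
        simp only [if_pos hle]
        rw [← ENNReal.ofReal_mul (by positivity)]
        refine ENNReal.ofReal_le_ofReal ?_
        have := mul_le_mul_of_nonneg_left (aa_sml c r n hr h0 (by omega)) (hw n)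
        linarith
  unfold BS
  calc ∑' n : ℕ, ENNReal.ofReal (sh w (n + 1)) * aa c r n
      ≤ ∑' n : ℕ, (ENNReal.ofReal 1440000 *
          (if r ^ 2 ≤ n then ENNReal.ofReal (w n * ph r n) else 0)
        + ∑ i ∈ Finset.range (m + 1),
          ENNReal.ofReal ((99 ^ 6 * 120 * 48) * (16 ^ i / (r : ℝ) ^ 4)) *
            (if (2 ^ i) ^ 2 ≤ n then ENNReal.ofReal (w n * ph (2 ^ i) n) else 0)) :=
        ENNReal.tsum_le_tsum hterm
    _ = ENNReal.ofReal 1440000 * TT w r + ∑ i ∈ Finset.range (m + 1),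
          ENNReal.ofReal ((99 ^ 6 * 120 * 48) * (16 ^ i / (r : ℝ) ^ 4)) * TT w (2 ^ i) := by
        rw [ENNReal.tsum_add, ENNReal.tsum_mul_left,
          Summable.tsum_finsetSum (fun i _ => ENNReal.summable)]
        congr 1
        refine Finset.sum_congr rfl fun i _ => ?_
        rw [ENNReal.tsum_mul_left]
        rfl
    _ ≤ ENNReal.ofReal 1440000 * ENNReal.ofReal H0 + ∑ i ∈ Finset.range (m + 1),
          ENNReal.ofReal ((99 ^ 6 * 120 * 48) * (16 ^ i / (r : ℝ) ^ 4)) * ENNReal.ofReal H0 := by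
        gcongr with i hi
        · exact hT r hr
        · exact hT (2 ^ i) (Nat.one_le_pow _ _ (by norm_num))
    _ = ENNReal.ofReal (1440000 * H0 + ∑ i ∈ Finset.range (m + 1),
          (99 ^ 6 * 120 * 48) * (16 ^ i / (r : ℝ) ^ 4) * H0) := by
        rw [ENNReal.ofReal_add (by positivity) (Finset.sum_nonneg fun i _ => by positivity),
          ENNReal.ofReal_sum_of_nonneg (fun i _ => by positivity),
          ENNReal.ofReal_mul (by norm_num)]
        congr 1
        refine Finset.sum_congr rfl fun i _ => ?_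
        exact (ENNReal.ofReal_mul (by positivity)).symm
    _ ≤ _ := by
        refine ENNReal.ofReal_le_ofReal ?_
        have h1 : ∑ i ∈ Finset.range (m + 1), (16 : ℝ) ^ i ≤ 2 * (r : ℝ) ^ 4 := by
          have h2 : (16 : ℝ) ^ m ≤ (r : ℝ) ^ 4 := by
            have h3 : 4 ^ m ≤ r ^ 2 := Nat.pow_log_le_self 4 hrr
            have h4 : ((4 : ℝ) ^ m) ^ 2 ≤ ((r : ℝ) ^ 2) ^ 2 := by
              have : (4 : ℝ) ^ m ≤ (r : ℝ) ^ 2 := by exact_mod_cast h3
              gcongr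
            calc (16 : ℝ) ^ m = ((4 : ℝ) ^ m) ^ 2 := by
                  rw [← pow_mul, mul_comm, pow_mul]; norm_num
              _ ≤ ((r : ℝ) ^ 2) ^ 2 := h4
              _ = (r : ℝ) ^ 4 := by ring
          have h5 := geo16 m
          linarith
        have h6 : ∑ i ∈ Finset.range (m + 1), (99 ^ 6 * 120 * 48) * ((16 : ℝ) ^ i / (r : ℝ) ^ 4) * H0
            = (99 ^ 6 * 120 * 48) * H0 / (r : ℝ) ^ 4 * ∑ i ∈ Finset.range (m + 1), (16 : ℝ) ^ i := by
          rw [Finset.mul_sum]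
          refine Finset.sum_congr rfl fun i _ => ?_
          ring
        rw [h6]
        have h7 : (99 ^ 6 * 120 * 48) * H0 / (r : ℝ) ^ 4 * ∑ i ∈ Finset.range (m + 1), (16 : ℝ) ^ i
            ≤ (99 ^ 6 * 120 * 48) * H0 / (r : ℝ) ^ 4 * (2 * (r : ℝ) ^ 4) := by gcongr
        have h8 : (99 ^ 6 * 120 * 48) * H0 / (r : ℝ) ^ 4 * (2 * (r : ℝ) ^ 4)
            = (99 ^ 6 * 120 * 48) * 2 * H0 := by
          field_simp
        linarith

/-- blocks -/
theorem tsum_div (a : ℕ) (ha : 1 ≤ a) (G : ℕ → ℝ≥0∞) :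
    ∑' n : ℕ, G (n / a) = a * ∑' j : ℕ, G j := by
  have : NeZero a := ⟨by omega⟩
  rw [← (Nat.divModEquiv a).symm.tsum_eq, ENNReal.tsum_prod']
  have h : ∀ (j : ℕ) (k : Fin a), (Nat.divModEquiv a).symm (j, k) / a = j := by
    intro j k
    have := congrArg Prod.fst ((Nat.divModEquiv a).apply_symm_apply (j, k))
    exact this
  simp_rw [h]
  rw [← ENNReal.tsum_mul_left]
  refine tsum_congr fun j => ?_
  rw [tsum_fintype, Finset.sum_const, Finset.card_univ, Fintype.card_fin, nsmul_eq_mul]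

/-- monotone majorants satisfy the criterion -/
theorem TT_mono (w g : ℕ → ℝ)
    (hg : ∀ a b : ℕ, 1 ≤ a → a ≤ b → g b ≤ g a) (hg0 : ∀ n : ℕ, 1 ≤ n → 0 ≤ g n)
    (hwg : ∀ n : ℕ, 1 ≤ n → w n ≤ g n / (n : ℝ) ^ 2)
    (hs : Summable fun n : ℕ => g n / ((n : ℝ) * (1 + Real.log n))) :
    ∃ H : ℝ, 0 ≤ H ∧ ∀ r : ℕ, 1 ≤ r → TT w r ≤ ENNReal.ofReal H := by
  set G : ℕ → ℝ := fun n => g n / ((n : ℝ) * (1 + Real.log n)) with hG
  have hG0 : ∀ n, 0 ≤ G n := by
    intro n
    rcases Nat.eq_zero_or_pos n with h0 | h0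
    · subst h0; simp [hG]
    · have h1 := hg0 n h0
      have h2 : 0 ≤ Real.log n := Real.log_natCast_nonneg n
      simp only [hG]
      positivity
  refine ⟨∑' n, G n, tsum_nonneg hG0, fun r hr => ?_⟩
  set a := r ^ 2 with ha
  have ha1 : 1 ≤ a := Nat.one_le_pow _ _ hr
  have har : (0 : ℝ) < (a : ℝ) := by exact_mod_cast ha1
  have hkey : ∀ n : ℕ, (if a ≤ n then ENNReal.ofReal (w n * ph r n) else 0) ≤
      ENNReal.ofReal (G (n / a) / a) := by
    intro n
    split_ifs with hn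
    · refine ENNReal.ofReal_le_ofReal ?_
      set j := n / a with hj
      have hj1 : 1 ≤ j := (Nat.one_le_div_iff ha1).mpr hn
      have hjn : j ≤ n := Nat.div_le_self _ _
      have haj : j * a ≤ n := Nat.div_mul_le_self n a
      have hn1 : 1 ≤ n := ha1.trans hn
      have hjr : (1 : ℝ) ≤ j := by exact_mod_cast hj1
      have hnr : (1 : ℝ) ≤ n := by exact_mod_cast hn1
      have hajr : (j : ℝ) * a ≤ n := by exact_mod_cast haj
      have hlj : 0 ≤ Real.log j := Real.log_natCast_nonneg j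
      have hr2 : ((r : ℝ)) ^ 2 = a := by rw [ha]; push_cast; ring
      have hll : Real.log j ≤ Real.log ((n : ℝ) / (r : ℝ) ^ 2) := by
        refine Real.log_le_log (by linarith) ?_
        rw [hr2, le_div_iff₀ har]
        exact hajr
      have hph : ph r n ≤ (n : ℝ) / (1 + Real.log j) := by
        unfold ph
        apply div_le_div_of_nonneg_left (by linarith) (by linarith) (by linarith)
      have hph0 : 0 ≤ ph r n := ph_nonneg hr hn
      have hwn : w n ≤ g j / (n : ℝ) ^ 2 := by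
        refine (hwg n hn1).trans ?_
        have := hg j n hj1 hjn
        gcongr
      have hgj := hg0 j hj1
      calc w n * ph r n ≤ (g j / (n : ℝ) ^ 2) * ((n : ℝ) / (1 + Real.log j)) := by
            refine mul_le_mul hwn hph hph0 (by positivity)
        _ = g j / (n * (1 + Real.log j)) := by
            have : (n : ℝ) ≠ 0 := by linarith
            field_simp
        _ ≤ g j / ((j * a) * (1 + Real.log j)) := by
            apply div_le_div_of_nonneg_left hgj (by positivity)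
            gcongr
        _ = G j / a := by
            simp only [hG]
            field_simp
    · exact zero_le
  calc TT w r ≤ ∑' n : ℕ, ENNReal.ofReal (G (n / a) / a) := ENNReal.tsum_le_tsum hkey
    _ = a * ∑' j : ℕ, ENNReal.ofReal (G j / a) := tsum_div a ha1 (fun j => ENNReal.ofReal (G j / a))
    _ = ∑' j : ℕ, ENNReal.ofReal (G j) := by
        rw [← ENNReal.tsum_mul_left]
        refine tsum_congr fun j => ?_
        rw [← ENNReal.ofReal_natCast, ← ENNReal.ofReal_mul har.le]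
        congr 1
        field_simp
    _ = ENNReal.ofReal (∑' n, G n) := (ENNReal.ofReal_tsum_of_nonneg hG0 hs).symm

end

end Pool.Agent.Y56.WP
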